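import Pool.Agent.L7h21.PT.Main

set_option autoImplicit false

/-!
# MP_0f91f8_co: colourings determined by many bits

Finite colourings of the positive integers for which the colour of `n ∈ [2 ^ j, 2 ^ (j + 1))` is
determined by `n` modulo an integer `q_j ≤ 2 ^ (a j)`, by the first `τ j` binary digits of the fractional
parts of `n α₁, …, n α_r`, where `a + r τ < 1`, by the first `c j` binary digits of the fractional parts of
`P₁(n), …, P_t(n)` for real polynomials `P_l`, and by the position of `n` with respect to a set with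
at most `X ^ c` elements up to `X`, have monochromatic Pythagorean triples.
-/

namespace Pool.Agent.Results.MP_0f91f8_co.ManyBitsColourings

open Polynomial Filter

/-- Let `r, t, d` be natural numbers and `a, τ ≥ 0` with `a + r τ < 1`.  There is a `c > 0` with the
following property.  Let `χ` be a colouring of the natural numbers with finitely many colours, let
`α₁, …, α_r` be real numbers, `P₁, …, P_t` real polynomials of degree at most `d`, let
`q_j ∣ q_{j+1}`, `q_j ≤ 2 ^ (a j)`, `D_j ≤ 2 ^ (τ j)`, `E_j ≤ 2 ^ (c j)` and let `B` be a set with at most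
`X ^ c` elements up to `X`.  Suppose that for all large `j` any two numbers
`2 ^ j ≤ m < n < 2 ^ (j + 1)` with no element of `B` in `(m, n]`, with `m ≡ n (mod q_j)`,
`⌊D_j {m α_l}⌋ = ⌊D_j {n α_l}⌋` and `⌊E_j {P_l(m)}⌋ = ⌊E_j {P_l(n)}⌋` for all `l` have the same colour.
Then there are arbitrarily large `x, y, z` with `x ^ 2 + y ^ 2 = z ^ 2` and of the same colour.

For instance (`r = 0`, `t = 2`, `d = 3`, `a = 0.99`) the colour of a number `n` with `j + 1` binary digits may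
depend arbitrarily on `j`, on the last `⌊0.99 j⌋` digits of `n` (`q_j = 2 ^ ⌊0.99 j⌋`), on its first `⌊c' j⌋` digits,
where `0 < c' < c` (`B` consists of the `b` with `2 ^ (j - ⌊c' j⌋) ∣ b` for the `j` with
`2 ^ j ≤ b < 2 ^ (j + 1)`), and on the first `⌊c j⌋` binary digits of the fractional parts of `√2 n ^ 2` and
`π n ^ 3`. -/
theorem result (r t d : ℕ) (a τ : ℝ) (ha : 0 ≤ a) (hτ : 0 ≤ τ) (hσ : a + r * τ < 1) :
    ∃ c : ℝ, 0 < c ∧ ∀ (κ : Type*) [Finite κ] (χ : ℕ → κ) (q D E : ℕ → ℕ) (α : Fin r → ℝ)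
      (P : Fin t → ℝ[X]) (B : Set ℕ),
      (∀ j, 0 < q j) → (∀ j, q j ∣ q (j + 1)) → (∀ j : ℕ, (q j : ℝ) ≤ 2 ^ (a * j)) →
      (∀ j : ℕ, (D j : ℝ) ≤ 2 ^ (τ * j)) → (∀ j : ℕ, (E j : ℝ) ≤ 2 ^ (c * j)) →
      (∀ l, (P l).natDegree ≤ d) →
      (∀ᶠ X : ℕ in atTop, ((B ∩ Set.Icc 1 X).ncard : ℝ) ≤ (X : ℝ) ^ c) →
      (∀ᶠ j : ℕ in atTop, ∀ m n : ℕ, 2 ^ j ≤ m → m < n → n < 2 ^ (j + 1) →
        (∀ b ∈ B, b ≤ m ∨ n < b) → m ≡ n [MOD q j] →
        (∀ l, ⌊(D j : ℝ) * Int.fract (m * α l)⌋ = ⌊(D j : ℝ) * Int.fract (n * α l)⌋) →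
        (∀ l, ⌊(E j : ℝ) * Int.fract ((P l).eval (m : ℝ))⌋ =
          ⌊(E j : ℝ) * Int.fract ((P l).eval (n : ℝ))⌋) → χ m = χ n) →
      ∀ M : ℕ, ∃ x y z : ℕ, M < x ∧ M < y ∧ x ^ 2 + y ^ 2 = z ^ 2 ∧ χ x = χ y ∧ χ y = χ z :=
  Pool.Agent.L7h21.PT.main r t d a τ ha hτ hσ

end Pool.Agent.Results.MP_0f91f8_co.ManyBitsColourings
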