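import Pool.Agent.L7h44.MF.Main

/-!
# Pythagorean triples and bounded multiplicative functions

A function `f` from the positive integers to a commutative monoid is multiplicative if `f 1 = 1` and
`f (m n) = f m * f n` for coprime `m` and `n`; the values at prime powers are arbitrary. We prove: for
finitely many multiplicative functions `f i` with values in the closed unit disc, finitely many integer valued
multiplicative functions `h i`, every modulus `m`, EVERY finite colouring `Φ` of the powerful numbers, and
`ε > 0` there are arbitrarily large Pythagorean triples `x, y, z` with `|f i x - f i y| < ε`,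
`|f i y - f i z| < ε` and `h i x ≡ h i y ≡ h i z` modulo `m` for all `i`, whose powerful parts have the same
colour (the powerful part of `n` is the product of the prime powers `p ^ a` with `a ≥ 2` which divide `n`
exactly). So no finite colouring which depends only on finitely many multiplicative functions modulo `m`
(the number and the sum of the divisors, the totient, the Fourier coefficients of integral Hecke eigenforms,
...), and on the powerful part, is a counterexample.

More generally let `g` be a multiplicative function with values in a finite commutative monoid, `q ≥ 1`, and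
let `c` be a finite colouring such that for every multiple `T` of `q` the colour of `T u`, `u` squarefree
and prime to `T`, depends only on `g u`, where the dependence may be different for every `T`. Then there
are arbitrarily large monochromatic Pythagorean triples on which the bounded multiplicative functions
`f i` are constant up to `ε`.

The earlier results on this problem have completely multiplicative maps to compact abelian groups
(`MultiplicativeBohrSets`) and colourings whose classes are tame (`NoInfiniteShattering`); the dilates of a
level set of a multiplicative function are in general neither totally bounded nor thick.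

Proof. One can pass to completely multiplicative maps `κ` to a finite abelian group `H` and `θ` to a torus,
evaluated at squarefree numbers with large prime factors (multiply at the end by a squarefree number with very
large prime factors, whose value for `g` is in the minimal ideal and at which all `f i` are small which take
small values at such numbers). It suffices to find for suitable numbers `s`, `D` a triple
`2 A B = s ^ D u`, `A ^ 2 - B ^ 2 = v`, `A ^ 2 + B ^ 2 = w` with squarefree `u, v, w` prime to `s` at which `κ` is
equal and `θ` nearly equal; here `D` is a difference of two exponents `i < j` for which the numbers `s ^ i u`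
and `s ^ j u` behave in the same way, so it is bounded in advance, but it depends on `s`. By the uniform
polynomial van der Waerden theorem (`Pool.Agent.TH956.ipvdw`) there are `a` and `s = 2 Q ^ 2 e`, `e` bounded,
such that `κ (a + r d) = κ a` and `θ (a + r d)` is close to `θ a` for given rational numbers `r` with
denominator `Q` and for `d = s ^ D l / 2` for all `D ≤ D₀` at the same time; the number of the possible
outcomes of this theorem does not depend on the numbers `r` and `Q`. So a sieve makes ALL the numbers
`a + r d` and `a ^ 2 + d ^ 2` squarefree for all outcomes if `Q` is divisible by all primes up to a bound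
which depends only on the number of the colours. By compactness the defects `κ (a ^ 2 + d ^ 2) - 2 κ a` (and
those of `θ`) may be prescribed, the same for all `Q` and all small sets of numbers `r`. If `A + B i` is
multiplied by `a + d i`, where `d` is divisible by `A B (A ^ 2 - B ^ 2)` and `r` runs over `-B/A`, `A/B`,
`-(A+B)/(A-B)`, `(A-B)/(A+B)`, then `A`, `B`, `A - B`, `A + B` are multiplied by numbers `a + r d` with the same
value of `κ`, and the defect of `A + B i` grows by the defect of `a + d i`. After a bounded number of steps
the defect is zero for `κ` and small for `θ`.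
-/

set_option autoImplicit false

namespace Pool.Agent.Results.MP_0f91f8_co.MultiplicativeFunctions

/-- multiplicative functions with values in a commutative monoid -/
def IsMult {S : Type} [CommMonoid S] (f : ℕ → S) : Prop :=
  f 1 = 1 ∧ ∀ m n : ℕ, 0 < m → 0 < n → m.Coprime n → f (m * n) = f m * f n

/-- the powerful part of `n`: the product of the `p ^ a` which divide `n` exactly and have `a ≥ 2` -/
def powerfulPart (n : ℕ) : ℕ := ∏ p ∈ n.primeFactors.filter (fun p => p ^ 2 ∣ n), p ^ n.factorization p

theorem result :
    -- the general theorem
    (∀ (S : Type) [CommMonoid S] [Finite S] (g : ℕ → S), IsMult g →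
      ∀ (C : Type) [Finite C] (c : ℕ → C) (q : ℕ), 0 < q →
      (∀ T u u' : ℕ, 0 < T → q ∣ T → Squarefree u → Squarefree u' → T.Coprime u → T.Coprime u' →
        g u = g u' → c (T * u) = c (T * u')) →
      ∀ (k : ℕ) (f : Fin k → ℕ → ℂ), (∀ i, IsMult (f i)) → (∀ i n, ‖f i n‖ ≤ 1) →
      ∀ (ε : ℝ), 0 < ε → ∀ K : ℕ, ∃ x y z : ℕ, K < x ∧ K < y ∧ K < z ∧ x ^ 2 + y ^ 2 = z ^ 2 ∧
        (c x = c y ∧ c y = c z) ∧ ∀ i, ‖f i x - f i y‖ < ε ∧ ‖f i y - f i z‖ < ε) ∧
    -- multiplicative functions modulo `m`, the powerful part, and bounded multiplicative functions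
    ∀ (l : ℕ) (h : Fin l → ArithmeticFunction ℤ), (∀ i, (h i).IsMultiplicative) →
      ∀ (m : ℕ), 0 < m → ∀ (C : Type) [Finite C] (Φ : ℕ → C)
      (k : ℕ) (f : Fin k → ℕ → ℂ), (∀ i, IsMult (f i)) → (∀ i n, ‖f i n‖ ≤ 1) →
      ∀ (ε : ℝ), 0 < ε → ∀ K : ℕ, ∃ x y z : ℕ, K < x ∧ K < y ∧ K < z ∧ x ^ 2 + y ^ 2 = z ^ 2 ∧
        (∀ i, h i x ≡ h i y [ZMOD m] ∧ h i y ≡ h i z [ZMOD m]) ∧
        (Φ (powerfulPart x) = Φ (powerfulPart y) ∧ Φ (powerfulPart y) = Φ (powerfulPart z)) ∧
        ∀ i, ‖f i x - f i y‖ < ε ∧ ‖f i y - f i z‖ < ε := by
  refine ⟨fun S _ _ g hg C _ c q hq hc k f hf hf1 ε hε K =>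
    Pool.Agent.L7h44.MF.main hg c q hq hc hf hf1 hε K, ?_⟩
  intro l h hh m hm C _ Φ k f hf hf1 ε hε K
  have : NeZero m := ⟨hm.ne'⟩
  let g : ℕ → Fin l → ZMod m := fun n i => ((h i n : ℤ) : ZMod m)
  have hg : IsMult g := by
    refine ⟨?_, fun a b _ _ hab => ?_⟩
    · funext i
      simp only [g]
      rw [(hh i).map_one]
      simp
    · funext i
      simp only [g, Pi.mul_apply]
      rw [(hh i).map_mul_of_coprime hab]
      push_cast
      rfl
  have hmul : ∀ T u : ℕ, 0 < T → Squarefree u → T.Coprime u →
      (g (T * u), Φ (powerfulPart (T * u))) = (g T * g u, Φ (powerfulPart T)) := by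
    intro T u hT hu hTu
    have h1 : powerfulPart (T * u) = powerfulPart T := Pool.Agent.L7h44.MF.powPart_mul hT hu hTu
    rw [h1, hg.2 _ _ hT (Nat.pos_of_ne_zero hu.ne_zero) hTu]
  obtain ⟨x, y, z, hx, hy, hz, hxyz, ⟨h1, h2⟩, h3⟩ := Pool.Agent.L7h44.MF.main
    (g := g) hg (fun n => (g n, Φ (powerfulPart n))) 1 one_pos
    (fun T u u' hT _ hu hu' hTu hTu' h => by
      rw [hmul T u hT hu hTu, hmul T u' hT hu' hTu', h]) hf hf1 hε K
  rw [Prod.mk.injEq] at h1 h2
  refine ⟨x, y, z, hx, hy, hz, hxyz, fun i => ⟨?_, ?_⟩, ⟨h1.2, h2.2⟩, h3⟩
  · exact (ZMod.intCast_eq_intCast_iff _ _ _).1 (congrFun h1.1 i)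
  · exact (ZMod.intCast_eq_intCast_iff _ _ _).1 (congrFun h2.1 i)

end Pool.Agent.Results.MP_0f91f8_co.MultiplicativeFunctions
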