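import Pool.Agent.L7h44.BM.BaseMain
import Pool.Agent.L7h44.BM.ZeckMain

set_option autoImplicit false

/-!
# Pythagorean triples and machines with bounded memory which read digits

Let `S` be a finite monoid and let `w j d` in `S` be ARBITRARY weights, for the positions `j` and the
digits `d`. Let `n` have the `l` digits `e (l - 1), …, e 1, e 0` (in a base `b ≥ 2`, or in the Zeckendorf
expansion of `n` as a sum of non-consecutive Fibonacci numbers), the last `v` of them being zero and
`e v ≠ 0`. We consider the colourings

`c(n) = F(l, v, w (l - 1) (e (l - 1)) ⋯ w 1 (e 1) w 0 (e 0))`

with arbitrary functions `F` with values in a finite set, and show that they have monochromatic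
Pythagorean triples `x, y, z` with `z / x` as large as we please.

If `S` is the monoid of the maps of a finite set of states (or the opposite monoid), then the product
describes a machine which reads the digits from the first to the last one (or from the last to the
first one), with transitions which depend in an arbitrary way on the position. So no colouring which is
computed by such a nonuniform machine with bounded memory is a counterexample. The starting files treat
automata whose transitions do not depend on the position; `DigitProductSemigroups` treats products in
semigroups in which different idempotents never generate the same left or right ideal, with weight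
`1` for the digit zero (for other semigroups the level sets need not contain dilates of all finite sets,
so that the method of that file does not apply).

## The proof

(1) Let `r` be the largest number such that there are arbitrarily long intervals of positions on which
all words give maps of rank at least `r`. In the limit of such intervals we obtain a machine for which
all words have rank at least `r`, while every interval of a certain length has a word of rank `r`.

(2) So for all sufficiently sparse positions there is a prefix `u` and a suffix `v` of rank `r` (for
finitely many shifts at the same time), and the map of a block which begins with `u` and ends with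
`v` has the kernel of `u` and the range of `v` (followed by zeros). With limits along an ultrafilter of
positions the maps of all blocks do not depend on the position; a power of such a map is the idempotent
with this kernel and this range, hence does not depend on the digits between `u` and `v`.

(3) By the pigeonhole principle there is a shift `D` such that kernel, range, and the map of the zeros
below the block are the same for the block which begins `D` positions lower and ends `D` positions
higher.

(4) For the base `b` the numbers `x = t⁷ + 2 t⁵ + 2 t³ + t`, `y = t⁸ + …`, `z = t⁸ + …`, `t = b ^ D`, are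
suitable: they are slightly larger than `b ^ (7 D)`, `b ^ (8 D)`, `b ^ (8 D)` and congruent to `b ^ D`,
`1`, `1` modulo powers of `b`. So the products of `u` (of `v`) with `x, y, z` begin with `u` (end with `v`)
in the right positions.

(5) For the Zeckendorf expansion the last digits of a multiple are governed by the conjugate, hence again by
the size of the factor: `x = L_{4D} L_{3D}`, `y = L_{4D}² - L_{3D}² / 4`, `z = L_{4D}² + L_{3D}² / 4` with Lucas
numbers and even `D` are close to the powers `7 D`, `8 D`, `8 D` of the golden ratio.

(6) The triple is `μ x, μ y, μ z`, where `μ` is a sum of blocks for `u` and `v` in suitable positions.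
-/

namespace Pool.Agent.Results.MP_0f91f8_co.NonuniformAutomata

/-- The product `w (l - 1) (e (l - 1)) * ⋯ * w 1 (e 1) * w 0 (e 0)` of the weights of the digits. -/
def digitProduct {S : Type} [Monoid S] (w : ℕ → ℕ → S) (e : ℕ → ℕ) (l : ℕ) : S :=
  ((List.range l).reverse.map fun j => w j (e j)).prod

/-- The digit of `n` in base `b` in the position `j`. -/
def digit (b n j : ℕ) : ℕ := n / b ^ j % b

/-- An arbitrary function `F` of the number of digits of `n` in base `b`, of the number of trailing zeros
(the exponent of the largest power of `b` which divides `n`) and of the product of the weights. -/
noncomputable def baseColour {S C : Type} [Monoid S] (b : ℕ) (w : ℕ → ℕ → S) (F : ℕ → ℕ → S → C)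
    (n : ℕ) : C :=
  F (Nat.digits b n).length (multiplicity b n)
    (digitProduct w (digit b n) (Nat.digits b n).length)

/-- The digit of the Zeckendorf expansion of `n` in the position `j`: it is `1` if the Fibonacci number
with index `j + 2` occurs. -/
noncomputable def zeckDigit (n j : ℕ) : ℕ := if j + 2 ∈ Nat.zeckendorf n then 1 else 0

/-- The number of digits of the Zeckendorf expansion of `n`. -/
def zeckLength (n : ℕ) : ℕ := Nat.greatestFib n - 1

/-- The number of trailing zeros of the Zeckendorf expansion of `n`. -/
noncomputable def zeckZeros (n : ℕ) : ℕ := sInf {j | j + 2 ∈ Nat.zeckendorf n}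

/-- The same for the Zeckendorf expansion. -/
noncomputable def zeckColour {S C : Type} [Monoid S] (w : ℕ → ℕ → S) (F : ℕ → ℕ → S → C)
    (n : ℕ) : C :=
  F (zeckLength n) (zeckZeros n) (digitProduct w (zeckDigit n) (zeckLength n))

theorem T_eq {S : Type} [Monoid S] (w : ℕ → ℕ → S) (e : ℕ → ℕ) (l : ℕ) :
    ∀ q : S, Pool.Agent.L7h44.BM.T (fun j d q => q * w j d) e 0 l q = q * digitProduct w e l := by
  induction l with
  | zero =>
    intro q
    simp [Pool.Agent.L7h44.BM.T, digitProduct]
  | succ l ih =>
    intro q
    have h1 : digitProduct w e (l + 1) = w l (e l) * digitProduct w e l := by
      unfold digitProduct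
      rw [List.range_succ, List.reverse_append, List.reverse_singleton, List.singleton_append,
        List.map_cons, List.prod_cons]
    change Pool.Agent.L7h44.BM.T (fun j d q => q * w j d) e 0 l (q * w (0 + l) (e (0 + l))) = _
    rw [ih, h1, zero_add, mul_assoc]

/-- Let `S` be a finite monoid, let `w j d` be arbitrary elements of `S` and let `F` be an arbitrary
function with values in a finite set. Then the colouring `baseColour b w F`, in any base `b ≥ 2`, and
the colouring `zeckColour w F` have monochromatic Pythagorean triples `x, y, z` with `z / x` as large
as we please. -/
theorem result {S C : Type} [Monoid S] [Finite S] [Finite C] (w : ℕ → ℕ → S) (F : ℕ → ℕ → S → C)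
    (P : ℕ) :
    (∀ b : ℕ, 2 ≤ b → ∃ x y z : ℕ, 0 < x ∧ 0 < y ∧ x ^ 2 + y ^ 2 = z ^ 2 ∧ P * x < z ∧
      baseColour b w F x = baseColour b w F y ∧ baseColour b w F y = baseColour b w F z) ∧
    ∃ x y z : ℕ, 0 < x ∧ 0 < y ∧ x ^ 2 + y ^ 2 = z ^ 2 ∧ P * x < z ∧
      zeckColour w F x = zeckColour w F y ∧ zeckColour w F y = zeckColour w F z := by
  constructor
  · intro b hb
    have key : ∀ n, Pool.Agent.L7h44.BM.colB b (fun j d q => q * w j d) 1 F n =
        baseColour b w F n := by
      intro n
      unfold Pool.Agent.L7h44.BM.colB baseColour
      rw [T_eq, one_mul]
      rfl
    obtain ⟨x, y, z, hx, hy, h, hP, h1, h2⟩ := Pool.Agent.L7h44.BM.base_main b hb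
      (fun j d q => q * w j d) 1 F P
    rw [key, key] at h1 h2
    exact ⟨x, y, z, hx, hy, h, hP, h1, h2⟩
  · have key : ∀ n, Pool.Agent.L7h44.BM.colZ (fun j d q => q * w j d) 1 F n =
        zeckColour w F n := by
      intro n
      unfold Pool.Agent.L7h44.BM.colZ zeckColour
      rw [T_eq, one_mul]
      rfl
    obtain ⟨x, y, z, hx, hy, h, hP, h1, h2⟩ := Pool.Agent.L7h44.BM.zeck_main
      (fun j d q => q * w j d) 1 F P
    rw [key, key] at h1 h2
    exact ⟨x, y, z, hx, hy, h, hP, h1, h2⟩

end Pool.Agent.Results.MP_0f91f8_co.NonuniformAutomata
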