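import Pool.Agent.L7h42.PD.Fin

/-!
# Pythagorean triples in arbitrary colourings, after a random change of scale

Let `c : ℕ → Fin r` be an arbitrary colouring with `r` colours. We consider the colourings
`n ↦ c ⌊n / A⌋` for real `A > 0`, and `n ↦ c ⌊β n ^ γ⌋` for `0 < γ < 1`. We show that the first one has
arbitrarily large monochromatic Pythagorean triples for a set of `A` of density one (of measure at least
`κ (b - a)` in every interval `(a, b)` of length at least `K`, where `K` and `κ > 0` depend only on `r`), and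
the second one for every `γ` and almost every `β > 0`. If the colouring `c` changes at most `δ N` times up to
`N` for arbitrarily large `N`, intervals of length `K δ` are sufficient, and if this holds for all `δ > 0`
then `n ↦ c ⌊n / A⌋` has such triples for almost every `A > 0`. All this is obtained from the corresponding
results on the colourings `n ↦ f (n / A)`, where `f` is a step function on the half line.

Proof (`Pool.Agent.L7h42.PD`; the parts are `Pool.Agent.L7h89.PD` and `Pool.Agent.L7h37.PD`). Let `n` be the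
Ramsey number for `r` colours and triangles, and `0 ≤ θ ≤ 1`. The numbers `u j = j + θ j ^ 2` with `j ≤ n` are
the vertices of a complete graph; the edge `i j` has the length `R i j = √(u j - u i)`, so
`R i j ^ 2 + R j k ^ 2 = R i k ^ 2`. For every `V > 0` the colouring of the edges by `f (R i j / V)` has a
monochromatic triangle, a real Pythagorean triple. By Dirichlet's theorem and a bound for the measure of the
exceptional set, for every `Q` there is ONE `θ` such that the tangents of the half angles of ALL these triangles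
have approximations `p / q` with `q ≤ Q` and an error `O(1 / Q ^ 2)` (for the usual fractions the error is
`O(1 / (q Q))`, which is too much for small `q`). For `A = m (p ^ 2 + q ^ 2) V / R i k` with a natural number `m`
the numbers `x = 2 m p q`, `y = m (q ^ 2 - p ^ 2)`, `z = m (p ^ 2 + q ^ 2)` form a Pythagorean triple,
`z / A = R i k / V`, and `x / A`, `y / A` are so near to the other sides divided by `V` that `f` has the same
values there, except for a set of `V ∈ [v, 2 v]` which has measure at most `v / 2` if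
`Q ^ 2` is about `(b - a) / (8 v)` and the number of the jumps of `f` is at most `δ X` for `X = O(1 / v)`. It
remains to count the numbers `m` for given `V`, and the numbers `m` for given `A`. In the limit
`v → 0` this gives the bound `κ (b - a)`. The other parts follow by the density theorem of Lebesgue, and by
the fact that the set of the `A` is closed under multiplication by positive integers.
-/

set_option autoImplicit false

open MeasureTheory Set Filter Topology

namespace Pool.Agent.Results.MP_0f91f8_co.PythagoreanDilations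

/-- The colouring `χ` has monochromatic Pythagorean triples of arbitrarily large numbers. -/
def Good {κ : Type} (χ : ℕ → κ) : Prop :=
  ∀ M : ℕ, ∃ x y z : ℕ, M < x ∧ M < y ∧ M < z ∧ x ^ 2 + y ^ 2 = z ^ 2 ∧ χ x = χ y ∧ χ y = χ z

/-- The number of the `m < N` such that `c m ≠ c (m + 1)`. -/
def changes {r : ℕ} (c : ℕ → Fin r) (N : ℕ) : ℕ :=
  ((Finset.range N).filter fun m => c m ≠ c (m + 1)).card

/-- `f` is (on the half line) a step function with jumps in the locally finite set `D`. -/
structure Step {r : ℕ} (f : ℝ → Fin r) (D : Set ℝ) : Prop where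
  measurable : Measurable f
  finite : ∀ X : ℝ, (D ∩ Ioc 0 X).Finite
  const : ∀ u v : ℝ, 0 ≤ u → u < v → D ∩ Ioc u v = ∅ → f u = f v

lemma good_iff {κ : Type} (χ : ℕ → κ) : Good χ ↔ Pool.Agent.L7h42.PD.Good χ := Iff.rfl

lemma jumps {r : ℕ} {f : ℝ → Fin r} {D : Set ℝ} (h : Step f D) : Pool.Agent.L7h42.PD.Jumps f D := by
  refine ⟨h.finite, fun u v hu huv hd => h.const u v hu huv ?_⟩
  ext d
  simp only [mem_inter_iff, mem_Ioc, mem_empty_iff_false, iff_false, not_and, not_le]
  intro hdD h1
  by_contra h2
  exact hd d hdD ⟨h1, not_lt.1 h2⟩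

/-- For every `r` there are `K, κ > 0` with the following properties.

(I) Let `f : ℝ → Fin r` be a step function on the half line with jumps in `D`. The set of the `A` such that the
colouring `n ↦ f (n / A)` is `Good` is measurable. If for some `δ > 0` and
arbitrarily large `X` there are at most `δ X` jumps up to `X`, then every interval `(a, b)` with `0 ≤ a` and
`K δ ≤ b - a` contains a set of measure at least `κ (b - a)` of numbers `A` such that the colouring
`n ↦ f (n / A)` is `Good`, and these numbers have density one in `(0, ∞)`; if this holds for every `δ > 0`, then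
the colouring is `Good` for almost every `A > 0`.

(II) Let `c : ℕ → Fin r` be any colouring. (0) The set of the `A` such that `n ↦ c ⌊n / A⌋` is `Good` is
measurable. (1) If `changes c N ≤ δ N` for arbitrarily large `N`, where `δ > 0`,
then every interval `(a, b)` with `0 ≤ a` and `K δ ≤ b - a` contains a set of measure at least `κ (b - a)` of
numbers `A` such that the colouring `n ↦ c ⌊n / A⌋` is `Good`. (2) These numbers have density one in `(0, ∞)`.
(3) If for every `δ > 0` we have `changes c N ≤ δ N` for arbitrarily large `N`, then they are almost all numbers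
`A > 0`. (4) If `0 < γ < 1`, then `n ↦ c ⌊β n ^ γ⌋` is `Good` for almost every `β > 0`. -/
theorem result (r : ℕ) : ∃ K κ : ℝ, 0 < K ∧ 0 < κ ∧
    (∀ (f : ℝ → Fin r) (D : Set ℝ), Step f D →
      MeasurableSet {A : ℝ | Good fun n : ℕ => f (n / A)} ∧
      (∀ δ : ℝ, 0 < δ → (∃ᶠ X : ℝ in atTop, ((D ∩ Ioc 0 X).ncard : ℝ) ≤ δ * X) →
        (∀ a b : ℝ, 0 ≤ a → K * δ ≤ b - a →
          κ * (b - a) ≤ volume.real {A ∈ Ioo a b | Good fun n : ℕ => f (n / A)}) ∧
        Tendsto (fun X : ℝ => volume.real {A ∈ Ioo 0 X | Good fun n : ℕ => f (n / A)} / X) atTop (𝓝 1)) ∧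
      ((∀ δ : ℝ, 0 < δ → ∃ᶠ X : ℝ in atTop, ((D ∩ Ioc 0 X).ncard : ℝ) ≤ δ * X) →
        ∀ᵐ A : ℝ, 0 < A → Good fun n : ℕ => f (n / A))) ∧
    ∀ c : ℕ → Fin r,
      MeasurableSet {A : ℝ | Good fun n : ℕ => c ⌊(n : ℝ) / A⌋₊} ∧
      (∀ δ : ℝ, 0 < δ → (∃ᶠ N : ℕ in atTop, (changes c N : ℝ) ≤ δ * N) →
        ∀ a b : ℝ, 0 ≤ a → K * δ ≤ b - a →
          κ * (b - a) ≤ volume.real {A ∈ Ioo a b | Good fun n : ℕ => c ⌊(n : ℝ) / A⌋₊}) ∧
      Tendsto (fun X : ℝ => volume.real {A ∈ Ioo 0 X | Good fun n : ℕ => c ⌊(n : ℝ) / A⌋₊} / X) atTop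
        (𝓝 1) ∧
      ((∀ δ : ℝ, 0 < δ → ∃ᶠ N : ℕ in atTop, (changes c N : ℝ) ≤ δ * N) →
        ∀ᵐ A : ℝ, 0 < A → Good fun n : ℕ => c ⌊(n : ℝ) / A⌋₊) ∧
      ∀ γ : ℝ, 0 < γ → γ < 1 → ∀ᵐ β : ℝ, 0 < β → Good fun n : ℕ => c ⌊β * (n : ℝ) ^ γ⌋₊ := by
  open Pool.Agent.L7h42.PD in
  obtain ⟨K, κ, hK, hκ, hmain⟩ := three hSID hTH hRAM hAPP hBAD hAVG r
  refine ⟨K, κ, hK, hκ, ?_⟩
  simp only [good_iff, measureReal_def]
  refine ⟨?_, ?_⟩
  · intro f D hf
    refine ⟨Pool.Agent.L7h42.PD.meas_good hf.measurable, fun δ hδ hfr => ⟨?_, ?_⟩, ?_⟩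
    · exact hmain f D hf.measurable (jumps hf) δ hδ hfr
    · exact Pool.Agent.L7h42.PD.dens_good hf.measurable (jumps hf) hδ hfr
    · intro hfr
      exact Pool.Agent.L7h42.PD.ae_good hf.measurable (jumps hf) hfr
  · intro c
    have hm := Pool.Agent.L7h42.PD.meas_floor c
    have hJ := Pool.Agent.L7h42.PD.jumps_floor c
    refine ⟨?_, fun δ hδ hfr => ?_, ?_, fun hfr => ?_, fun γ h0 h1 => ?_⟩
    · have h := Pool.Agent.L7h42.PD.meas_good hm
      exact h
    · have h := hmain _ _ hm hJ δ hδ (Pool.Agent.L7h42.PD.freq c δ hfr)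
      exact h
    · have h := Pool.Agent.L7h42.PD.dens_good hm hJ one_pos (Pool.Agent.L7h42.PD.freq c 1
        (Frequently.of_forall (Pool.Agent.L7h42.PD.changes_le c)))
      exact h
    · have h := Pool.Agent.L7h42.PD.ae_good hm hJ fun δ hδ => Pool.Agent.L7h42.PD.freq c δ (hfr δ hδ)
      exact h
    · exact Pool.Agent.L7h42.PD.pow_good c γ h0 h1

end Pool.Agent.Results.MP_0f91f8_co.PythagoreanDilations
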